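import Pool.Agent.K7.H32.FT.Stm2
import Pool.Agent.K7.H60.FT_JH

/-! Project FT, job JC: the identity for the powers of the full twist on `Om K`. -/

set_option autoImplicit false

namespace Pool.Agent.K7.H35.FT_JC

open Finset Matrix Filter Topology Pool.Agent.H550R3.Jones Pool.Agent.W715.VC
open Pool.Agent.K7.H32.FT
open Pool.Agent.K7.H60.FT_JH (zpow_diff br_diff prod_diff sum_diff crossP_diff crossN_diff)

variable {N : ℕ}

/-- all the values are differentiable at `v` -/
def Df (v : ℂ) (g : ℂ → St N) : Prop := ∀ s, DifferentiableAt ℂ (fun w => g w s) v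

lemma df_cm {v : ℂ} {g : ℂ → St N} (hg : Df v g) (a : Fin N) : Df v (fun w => cm a (g w)) :=
  fun s => hg (a :: s)

lemma df_eo {v : ℂ} (hv : v ≠ 0) (s : List (Fin N)) : ∀ {g : ℂ → St N}, Df v g →
    DifferentiableAt ℂ (fun w => eo w (g w) s) v := by
  induction s with
  | nil => intro g _; exact differentiableAt_const _
  | cons a s ih =>
    intro g hg
    simp only [eo_cons]
    refine DifferentiableAt.add ?_ (ih (df_cm hg a))
    by_cases h : (a : ℕ) + 1 < N
    · simp only [h, dite_true]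
      exact ((br_diff hv _).mul (zpow_diff hv _)).mul (hg _)
    · simp only [h, dite_false]
      exact differentiableAt_const _

lemma df_fo {v : ℂ} (hv : v ≠ 0) (s : List (Fin N)) : ∀ {g : ℂ → St N}, Df v g →
    DifferentiableAt ℂ (fun w => fo w (g w) s) v := by
  induction s with
  | nil => intro g _; exact differentiableAt_const _
  | cons a s ih =>
    intro g hg
    simp only [fo_cons]
    refine DifferentiableAt.add ?_ ((zpow_diff hv _).mul (ih (df_cm hg a)))
    by_cases h : 0 < (a : ℕ)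
    · simp only [h, dite_true]
      exact (br_diff hv _).mul (hg _)
    · simp only [h, dite_false]
      exact differentiableAt_const _

lemma df_cr {v : ℂ} {R : ℂ → Mx N} (hR : ∀ p q, DifferentiableAt ℂ (fun w => R w p q) v) (i : ℕ) :
    ∀ {g : ℂ → St N}, Df v g → Df v (fun w => cr (R w) i (g w)) := by
  induction i with
  | zero =>
    intro g hg s
    rcases s with _ | ⟨a, _ | ⟨b, r⟩⟩
    · have : (fun w => cr (R w) 0 (g w) []) = fun _ => 0 := by
        funext w; exact cr_short _ _ _ _ (by simp)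
      rw [this]
      exact differentiableAt_const _
    · have : (fun w => cr (R w) 0 (g w) [a]) = fun _ => 0 := by
        funext w; exact cr_short _ _ _ _ (by simp)
      rw [this]
      exact differentiableAt_const _
    · simp only [cr_zero]
      exact sum_diff _ _ fun p _ => (hR _ p).mul (hg _)
  | succ i ih =>
    intro g hg s
    rcases s with _ | ⟨a, s⟩
    · have : (fun w => cr (R w) (i + 1) (g w) []) = fun _ => 0 := by
        funext w; exact cr_short _ _ _ _ (by simp)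
      rw [this]
      exact differentiableAt_const _
    · simp only [cr_succ]
      exact ih (df_cm hg a) s

lemma df_opw {v : ℂ} {R : ℂ → Mx N} (hR : ∀ p q, DifferentiableAt ℂ (fun w => R w p q) v)
    (l : List ℕ) : ∀ {g : ℂ → St N}, Df v g → Df v (fun w => opw (R w) l (g w)) := by
  induction l with
  | nil => intro g hg; exact hg
  | cons i l ih =>
    intro g hg
    exact ih (df_cr hR i hg)

lemma df_Rm {v : ℂ} (hv : v ≠ 0) (hN : ∀ k : ℕ, 0 < k → k < N → br v k ≠ 0) (σ : Bool)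
    (p q : Fin N × Fin N) : DifferentiableAt ℂ (fun w => Rm N w σ p q) v := by
  cases σ
  · exact crossN_diff hv hN p q
  · exact crossP_diff hv hN p q

lemma df_ft {v : ℂ} (hv : v ≠ 0) (hN : ∀ k : ℕ, 0 < k → k < N → br v k ≠ 0) (σ : Bool) (n : ℕ)
    {g : ℂ → St N} (hg : Df v g) : Df v (fun w => ft N w n σ (g w)) :=
  df_opw (df_Rm hv hN σ) _ hg

lemma df_ftp {v : ℂ} (hv : v ≠ 0) (hN : ∀ k : ℕ, 0 < k → k < N → br v k ≠ 0) (σ : Bool) (n A : ℕ) :
    ∀ {g : ℂ → St N}, Df v g → Df v (fun w => ((ft N w n σ) ^ A) (g w)) := by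
  induction A with
  | zero => intro g hg; simpa using hg
  | succ A ih =>
    intro g hg
    have := ih (df_ft hv hN σ n hg)
    simpa only [pow_succ, Module.End.mul_apply] using this

lemma zz_diff {v : ℂ} (hv : v ≠ 0) (n : ℕ) (y : ℤ) :
    DifferentiableAt ℂ (fun w => zz N w n y) v :=
  (zpow_diff hv _).add (zpow_diff hv _)

lemma df_cas {v : ℂ} (hv : v ≠ 0) {g : ℂ → St N} (hg : Df v g) :
    Df v (fun w => cas N w (g w)) := by
  intro s
  have h : (fun w => cas N w (g w) s) = fun w => fo w (eo w (g w)) s +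
      zz N w s.length (isum s) * g w s := rfl
  rw [h]
  exact (df_fo hv s (fun t => df_eo hv t hg)).add ((zz_diff hv _ _).mul (hg s))

lemma df_pc {v : ℂ} (hv : v ≠ 0) (n : ℕ) (l : List ℕ) {g : ℂ → St N} (hg : Df v g) :
    Df v (fun w => pc N w n l (g w)) := by
  induction l with
  | nil => exact hg
  | cons y l ih =>
    intro s
    have h : (fun w => pc N w n (y :: l) (g w) s) = fun w =>
      cas N w (pc N w n l (g w)) s - zz N w n y * pc N w n l (g w) s := rfl
    rw [h]
    exact (df_cas hv ih s).sub ((zz_diff hv _ _).mul (ih s))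

lemma zz_sub {v : ℂ} (hv : v ≠ 0) (n : ℕ) (y y' : ℤ) : zz N v n y - zz N v n y' =
    br v (y' - y) * br v (n * ((N : ℤ) - 1) + 1 - y - y') := by
  simp only [zz, Pool.Agent.K7.H32.FT.cc, br]
  have e1 : v ^ ((n : ℤ) * ((N : ℤ) - 1) - 2 * y + 1) =
      v ^ (y' - y) * v ^ ((n : ℤ) * ((N : ℤ) - 1) + 1 - y - y') := by
    rw [← zpow_add₀ hv]; congr 1; ring
  have e2 : v ^ (-((n : ℤ) * ((N : ℤ) - 1) - 2 * y + 1)) =
      v ^ (-(y' - y)) * v ^ (-((n : ℤ) * ((N : ℤ) - 1) + 1 - y - y')) := by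
    rw [← zpow_add₀ hv]; congr 1; ring
  have e3 : v ^ ((n : ℤ) * ((N : ℤ) - 1) - 2 * y' + 1) =
      v ^ (-(y' - y)) * v ^ ((n : ℤ) * ((N : ℤ) - 1) + 1 - y - y') := by
    rw [← zpow_add₀ hv]; congr 1; ring
  have e4 : v ^ (-((n : ℤ) * ((N : ℤ) - 1) - 2 * y' + 1)) =
      v ^ (y' - y) * v ^ (-((n : ℤ) * ((N : ℤ) - 1) + 1 - y - y')) := by
    rw [← zpow_add₀ hv]; congr 1; ring
  rw [e1, e2, e3, e4]
  ring

lemma br_ne_of_abs {v : ℂ} {K : ℕ} (hv : v ∈ Om K) {k : ℤ} (h0 : k ≠ 0) (hk : |k| ≤ K) :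
    br v k ≠ 0 := by
  have h1 : br v ((k.natAbs : ℕ) : ℤ) ≠ 0 := hv.2 k.natAbs (Int.natAbs_pos.2 h0) (by
    rw [Int.abs_eq_natAbs] at hk
    exact_mod_cast hk)
  rcases le_total 0 k with h | h
  · rwa [Int.natAbs_of_nonneg h] at h1
  · have h2 : ((k.natAbs : ℕ) : ℤ) = -k := Int.ofNat_natAbs_of_nonpos h
    rw [h2] at h1
    intro h3
    apply h1
    simp only [br, neg_neg] at h3 ⊢
    rw [← neg_sub, h3, neg_zero]

lemma zz_ne (hN : 1 ≤ N) {n K : ℕ} (hK : n * N ≤ K) {v : ℂ} (hv : v ∈ Om K) {y y' : ℕ}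
    (hy : y ≤ Sn N n) (hy' : y' ≤ Sn N n) (hne : y' ≠ y) :
    zz N v n y - zz N v n y' ≠ 0 := by
  rw [zz_sub hv.1]
  have hS : 2 * Sn N n ≤ n * (N - 1) := by unfold Sn; omega
  obtain ⟨M, rfl⟩ : ∃ M, N = M + 1 := ⟨N - 1, by omega⟩
  simp only [Nat.add_sub_cancel] at hS
  have hK' : n * M + n ≤ K := by
    calc n * M + n = n * (M + 1) := by ring
      _ ≤ K := hK
  have hS' : (2 * Sn (M + 1) n : ℤ) ≤ (n * M : ℕ) := by exact_mod_cast hS
  have hK'' : ((n * M : ℕ) : ℤ) + n ≤ K := by exact_mod_cast hK'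
  have e : (n : ℤ) * (((M + 1 : ℕ) : ℤ) - 1) = (n * M : ℕ) := by push_cast; ring
  have hy1 : (y : ℤ) ≤ Sn (M + 1) n := by exact_mod_cast hy
  have hy2 : (y' : ℤ) ≤ Sn (M + 1) n := by exact_mod_cast hy'
  have hne' : (y' : ℤ) ≠ y := by exact_mod_cast hne
  rw [e]
  refine mul_ne_zero (br_ne_of_abs hv (by omega) ?_) (br_ne_of_abs hv (by omega) ?_)
  · rw [abs_le]; constructor <;> omega
  · rw [abs_le]; constructor <;> omega

/-- Job JC. -/
theorem t_all : S_ALL := by
  intro hreal hidt N hN n K hnK hNK v hv σ A f s hs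
  have hadm : ∀ w ∈ Om K, ∀ k : ℕ, 0 < k → k < N → br w k ≠ 0 :=
    fun w hw k h0 hk => hw.2 k h0 (by omega)
  refine (hidt K).2 (fun w => ((ft N w n σ) ^ A) f s) (fun w => rhs N w n σ A f s) ?_ ?_ ?_ v hv
  · intro w hw
    exact (df_ftp hw.1 (hadm w hw) σ n A (g := fun _ => f)
      (fun _ => differentiableAt_const _) s).differentiableWithinAt
  · intro w hw
    refine DifferentiableAt.differentiableWithinAt ?_
    unfold rhs
    refine sum_diff _ _ fun y hy => ?_
    refine ((zpow_diff hw.1 _).mul (DifferentiableAt.inv ?_ ?_)).mul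
      (df_pc hw.1 n _ (g := fun _ => f) (fun _ => differentiableAt_const _) s)
    · exact prod_diff _ _ fun y' _ => (zz_diff hw.1 _ _).sub (zz_diff hw.1 _ _)
    · rw [Finset.prod_ne_zero_iff]
      intro y' hy'
      rw [mem_erase, mem_range] at hy'
      rw [mem_range] at hy
      exact zz_ne hN hnK hw (by omega) (by omega) hy'.1
  · intro x hx
    exact hreal N x hN hx n σ A f s hs

end Pool.Agent.K7.H35.FT_JC
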