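import Pool.Agent.K7.H36.CN.Defs

set_option autoImplicit false

/-!
# Job GUESS of project CN (MP_f04f62_co): the abstract guessing game
-/

namespace Pool.Agent.K7.H35.CN

open Pool.Agent.K7.H36.CN Finset

lemma pigeon {k : ℕ} (v : Fin k → Fin 16) (W : Fin k → ℝ) :
    ∃ x : Fin 16, 16 * ∑ i ∈ univ.filter (fun i => v i = x), W i ≤ ∑ i, W i := by
  by_contra hcon
  push Not at hcon
  have h1 : ∑ _x : Fin 16, ∑ i, W i <
      ∑ x : Fin 16, 16 * ∑ i ∈ univ.filter (fun i => v i = x), W i :=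
    Finset.sum_lt_sum_of_nonempty ⟨0, mem_univ _⟩ fun x _ => hcon x
  rw [← Finset.mul_sum, Finset.sum_fiberwise, Finset.sum_const, Finset.card_univ,
    Fintype.card_fin, nsmul_eq_mul] at h1
  push_cast at h1
  exact lt_irrefl _ h1

variable {k : ℕ} (P : ℕ) (T : ℕ → Finset ℕ) (Tgt : Set ℕ)

open Classical in
/-- the weights used for the choice -/
noncomputable def uu (n : ℕ) (st : Fin k → ℕ → Prop) (i : Fin k) (Y : ℕ) : ℝ :=
  if Y ∈ Tgt ∧ n + 1 ≤ Y ∧ st i Y then
    (1 / 8) ^ ((T Y).filter (n ≤ ·)).card * (1 + ((Y : ℝ) - n - 1) / P) else 0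

/-- the weight of an opponent -/
noncomputable def WW (n : ℕ) (st : Fin k → ℕ → Prop) (i : Fin k) : ℝ :=
  ∑ Y ∈ range (n + P + 1), if n ∈ T Y then uu P T Tgt n st i Y else 0

/-- the answer -/
noncomputable def ch (n : ℕ) (st : Fin k → ℕ → Prop) (v : Fin k → Fin 16) : Fin 16 :=
  (pigeon v (WW P T Tgt n st)).choose

lemma ch_spec (n : ℕ) (st : Fin k → ℕ → Prop) (v : Fin k → Fin 16) :
    16 * ∑ i ∈ univ.filter (fun i => v i = ch P T Tgt n st v), WW P T Tgt n st i ≤
      ∑ i, WW P T Tgt n st i :=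
  (pigeon v (WW P T Tgt n st)).choose_spec

/-- the alive pairs -/
def stt (g : ℕ → Fin k → Fin 16) : ℕ → Fin k → ℕ → Prop
  | 0 => fun _ _ => True
  | n + 1 => fun i Y => stt g n i Y ∧ (n ∈ T Y →
      g (2 * n) i = ch P T Tgt n (stt g n) (g (2 * n)) ∨
      g (2 * n + 1) i = ch P T Tgt n (stt g n) (g (2 * n + 1)))

lemma stt_congr (g g' : ℕ → Fin k → Fin 16) (n : ℕ) (h : ∀ j < 2 * n, g j = g' j) :
    stt P T Tgt g n = stt P T Tgt g' n := by
  induction n with
  | zero => rfl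
  | succ n ih =>
    have h1 := ih fun j hj => h j (by omega)
    have h2 := h (2 * n) (by omega)
    have h3 := h (2 * n + 1) (by omega)
    funext i Y
    simp only [stt, h1, h2, h3]

/-- weights -/
noncomputable def wt (n Y : ℕ) : ℝ :=
  (1 / 8) ^ ((T Y).filter (n ≤ ·)).card * (1 + ((Y : ℝ) - n) / P)

open Classical in
/-- terms of the potential -/
noncomputable def tm (g : ℕ → Fin k → Fin 16) (n : ℕ) (i : Fin k) (Y : ℕ) : ℝ :=
  if Y ∈ Tgt ∧ n ≤ Y ∧ stt P T Tgt g n i Y then wt P T n Y else 0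

/-- the potential -/
noncomputable def Phi (g : ℕ → Fin k → Fin 16) (n : ℕ) : ℝ :=
  ∑ i, ∑ Y ∈ range (n + P + 1), tm P T Tgt g n i Y

variable {P T Tgt}

lemma uu_nonneg (n : ℕ) (st : Fin k → ℕ → Prop) (i : Fin k) (Y : ℕ) :
    0 ≤ uu P T Tgt n st i Y := by
  unfold uu
  split_ifs with h
  · have h1 : (n : ℝ) + 1 ≤ Y := by exact_mod_cast h.2.1
    have h2 : 0 ≤ ((Y : ℝ) - n - 1) / P := div_nonneg (by linarith) (Nat.cast_nonneg _)
    positivity
  · exact le_rfl

lemma tm_nonneg (g : ℕ → Fin k → Fin 16) (n : ℕ) (i : Fin k) (Y : ℕ) :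
    0 ≤ tm P T Tgt g n i Y := by
  unfold tm wt
  split_ifs with h
  · have h1 : (n : ℝ) ≤ Y := by exact_mod_cast h.2.1
    have h2 : 0 ≤ ((Y : ℝ) - n) / P := div_nonneg (by linarith) (Nat.cast_nonneg _)
    positivity
  · exact le_rfl

lemma uu_le (hP : 0 < P) (g : ℕ → Fin k → Fin 16) (n : ℕ) (i : Fin k) (Y : ℕ)
    (hY : Y ≤ n + P) :
    uu P T Tgt n (stt P T Tgt g n) i Y ≤ (1 - 1 / (2 * P)) * tm P T Tgt g n i Y := by
  have hP' : (1 : ℝ) ≤ P := by exact_mod_cast hP
  have hc : (0 : ℝ) ≤ 1 - 1 / (2 * P) := by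
    rw [sub_nonneg, div_le_one (by positivity)]
    linarith
  by_cases h : Y ∈ Tgt ∧ n + 1 ≤ Y ∧ stt P T Tgt g n i Y
  · have h' : Y ∈ Tgt ∧ n ≤ Y ∧ stt P T Tgt g n i Y := ⟨h.1, by omega, h.2.2⟩
    rw [uu, if_pos h, tm, if_pos h', wt]
    have hY' : (Y : ℝ) ≤ n + P := by exact_mod_cast hY
    have key : 1 + ((Y : ℝ) - n - 1) / P ≤ (1 - 1 / (2 * P)) * (1 + ((Y : ℝ) - n) / P) := by
      have e : (1 - 1 / (2 * P)) * (1 + ((Y : ℝ) - n) / P) - (1 + ((Y : ℝ) - n - 1) / P) =
          (P - (Y - n)) / (2 * P * P) := by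
        field_simp
        ring
      have : 0 ≤ ((P : ℝ) - (Y - n)) / (2 * P * P) := div_nonneg (by linarith) (by positivity)
      linarith
    calc (1 / 8 : ℝ) ^ ((T Y).filter (n ≤ ·)).card * (1 + ((Y : ℝ) - n - 1) / P)
        ≤ (1 / 8 : ℝ) ^ ((T Y).filter (n ≤ ·)).card *
          ((1 - 1 / (2 * P)) * (1 + ((Y : ℝ) - n) / P)) :=
          mul_le_mul_of_nonneg_left key (by positivity)
      _ = _ := by ring
  · rw [uu, if_neg h]
    exact mul_nonneg hc (tm_nonneg _ _ _ _)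

open Classical in
lemma tm_succ (g : ℕ → Fin k → Fin 16) (n : ℕ) (i : Fin k) (Y : ℕ) :
    tm P T Tgt g (n + 1) i Y ≤
      if n ∈ T Y then
        (if g (2 * n) i = ch P T Tgt n (stt P T Tgt g n) (g (2 * n)) ∨
          g (2 * n + 1) i = ch P T Tgt n (stt P T Tgt g n) (g (2 * n + 1)) then
          8 * uu P T Tgt n (stt P T Tgt g n) i Y else 0)
      else uu P T Tgt n (stt P T Tgt g n) i Y := by
  by_cases h : Y ∈ Tgt ∧ n + 1 ≤ Y ∧ stt P T Tgt g (n + 1) i Y
  · rw [tm, if_pos h, wt]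
    obtain ⟨h1, h2, h3⟩ := h
    simp only [stt] at h3
    have h4 : Y ∈ Tgt ∧ n + 1 ≤ Y ∧ stt P T Tgt g n i Y := ⟨h1, h2, h3.1⟩
    by_cases hn : n ∈ T Y
    · rw [if_pos hn, if_pos (h3.2 hn), uu, if_pos h4]
      have e : (T Y).filter (n ≤ ·) = insert n ((T Y).filter (n + 1 ≤ ·)) := by
        ext y
        simp only [mem_filter, mem_insert]
        constructor
        · rintro ⟨a, b⟩
          rcases Nat.eq_or_lt_of_le b with c | c
          · exact Or.inl c.symm
          · exact Or.inr ⟨a, c⟩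
        · rintro (rfl | ⟨a, b⟩)
          · exact ⟨hn, le_rfl⟩
          · exact ⟨a, by omega⟩
      rw [e, card_insert_of_notMem (by simp), pow_succ]
      push_cast
      apply le_of_eq
      ring
    · rw [if_neg hn, uu, if_pos h4]
      have e : (T Y).filter (n ≤ ·) = (T Y).filter (n + 1 ≤ ·) := by
        ext y
        simp only [mem_filter]
        constructor
        · rintro ⟨a, b⟩
          refine ⟨a, ?_⟩
          rcases Nat.eq_or_lt_of_le b with c | c
          · exact absurd (c ▸ a) hn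
          · exact c
        · rintro ⟨a, b⟩
          exact ⟨a, by omega⟩
      rw [e]
      push_cast
      apply le_of_eq
      ring
  · rw [tm, if_neg h]
    have := uu_nonneg (P := P) (T := T) (Tgt := Tgt) n (stt P T Tgt g n) i Y
    split_ifs <;> first | exact le_rfl | positivity

lemma card_full (hT : ∀ Y ∈ Tgt, ∀ y ∈ T Y, y < Y ∧ Y ≤ y + P) {n Y : ℕ} (hY : Y ∈ Tgt)
    (hn : n + P ≤ Y) : (T Y).filter (n ≤ ·) = T Y := by
  apply filter_true_of_mem
  intro y hy
  have := (hT Y hY y hy).2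
  omega

lemma tm_new (hP : 0 < P) {R : ℕ} (hT : ∀ Y ∈ Tgt, ∀ y ∈ T Y, y < Y ∧ Y ≤ y + P)
    (hR : ∀ Y ∈ Tgt, R ≤ (T Y).card) (g : ℕ → Fin k → Fin 16) (n : ℕ) (i : Fin k) (Y : ℕ)
    (hY : Y ≤ n + P) (hf : Y ∈ Tgt → (T Y).filter (n ≤ ·) = T Y) :
    tm P T Tgt g n i Y ≤ 2 * (1 / 8) ^ R := by
  rw [tm]
  split_ifs with h
  · rw [wt, hf h.1]
    have hP' : (0 : ℝ) < P := by exact_mod_cast hP
    have hY' : (Y : ℝ) ≤ n + P := by exact_mod_cast hY
    have hY2 : (n : ℝ) ≤ Y := by exact_mod_cast h.2.1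
    have h1 : (1 / 8 : ℝ) ^ (T Y).card ≤ (1 / 8) ^ R :=
      pow_le_pow_of_le_one (by norm_num) (by norm_num) (hR Y h.1)
    have h2 : 1 + ((Y : ℝ) - n) / P ≤ 2 := by
      have : ((Y : ℝ) - n) / P ≤ 1 := by
        rw [div_le_one hP']
        linarith
      linarith
    have h3 : 0 ≤ ((Y : ℝ) - n) / P := div_nonneg (by linarith) hP'.le
    calc (1 / 8 : ℝ) ^ (T Y).card * (1 + ((Y : ℝ) - n) / P) ≤ (1 / 8) ^ R * 2 :=
          mul_le_mul h1 h2 (by linarith) (by positivity)
      _ = _ := by ring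
  · positivity

lemma Phi_succ (hP : 0 < P) {R : ℕ} (hT : ∀ Y ∈ Tgt, ∀ y ∈ T Y, y < Y ∧ Y ≤ y + P)
    (hR : ∀ Y ∈ Tgt, R ≤ (T Y).card) (g : ℕ → Fin k → Fin 16) (n : ℕ) :
    Phi P T Tgt g (n + 1) ≤ (1 - 1 / (2 * P)) * Phi P T Tgt g n + k * (2 * (1 / 8) ^ R) := by
  classical
  set st := stt P T Tgt g n with hst
  set x0 := ch P T Tgt n st (g (2 * n)) with hx0
  set x1 := ch P T Tgt n st (g (2 * n + 1)) with hx1
  -- the old targets
  have hold : ∑ i, ∑ Y ∈ range (n + P + 1), tm P T Tgt g (n + 1) i Y ≤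
      ∑ i, ∑ Y ∈ range (n + P + 1), uu P T Tgt n st i Y := by
    have h1 : ∀ i, ∑ Y ∈ range (n + P + 1), tm P T Tgt g (n + 1) i Y ≤
        (if g (2 * n) i = x0 ∨ g (2 * n + 1) i = x1 then 8 * WW P T Tgt n st i else 0) +
        ∑ Y ∈ range (n + P + 1), if n ∈ T Y then 0 else uu P T Tgt n st i Y := by
      intro i
      have h2 : ∑ Y ∈ range (n + P + 1), tm P T Tgt g (n + 1) i Y ≤
          ∑ Y ∈ range (n + P + 1), ((if g (2 * n) i = x0 ∨ g (2 * n + 1) i = x1 then
            8 * (if n ∈ T Y then uu P T Tgt n st i Y else 0) else 0) +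
            (if n ∈ T Y then 0 else uu P T Tgt n st i Y)) := by
        apply Finset.sum_le_sum
        intro Y _
        refine (tm_succ g n i Y).trans (le_of_eq ?_)
        by_cases hn : n ∈ T Y <;>
          by_cases hh : g (2 * n) i = x0 ∨ g (2 * n + 1) i = x1 <;>
          simp [hn, hh, ← hst, ← hx0, ← hx1]
      refine h2.trans (le_of_eq ?_)
      rw [Finset.sum_add_distrib]
      congr 1
      split_ifs
      · rw [WW, Finset.mul_sum]
      · simp
    have h3 : ∀ i, ∑ Y ∈ range (n + P + 1), uu P T Tgt n st i Y = WW P T Tgt n st i +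
        ∑ Y ∈ range (n + P + 1), if n ∈ T Y then 0 else uu P T Tgt n st i Y := by
      intro i
      rw [WW, ← Finset.sum_add_distrib]
      apply Finset.sum_congr rfl
      intro Y _
      split_ifs <;> simp
    have hWn : ∀ i, 0 ≤ WW P T Tgt n st i := by
      intro i
      apply Finset.sum_nonneg
      intro Y _
      split_ifs
      · exact uu_nonneg _ _ _ _
      · exact le_rfl
    have h4 : ∑ i, (if g (2 * n) i = x0 ∨ g (2 * n + 1) i = x1 then
        8 * WW P T Tgt n st i else 0) ≤ ∑ i, WW P T Tgt n st i := by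
      have h5 := ch_spec P T Tgt n st (g (2 * n))
      have h6 := ch_spec P T Tgt n st (g (2 * n + 1))
      rw [← hx0] at h5
      rw [← hx1] at h6
      rw [Finset.sum_filter] at h5 h6
      have h7 : ∑ i, (if g (2 * n) i = x0 ∨ g (2 * n + 1) i = x1 then
          8 * WW P T Tgt n st i else 0) ≤
          8 * ∑ i, (if g (2 * n) i = x0 then WW P T Tgt n st i else 0) +
          8 * ∑ i, (if g (2 * n + 1) i = x1 then WW P T Tgt n st i else 0) := by
        rw [Finset.mul_sum, Finset.mul_sum, ← Finset.sum_add_distrib]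
        apply Finset.sum_le_sum
        intro i _
        have := hWn i
        by_cases ha : g (2 * n) i = x0 <;> by_cases hb : g (2 * n + 1) i = x1 <;>
          simp [ha, hb] <;> linarith
      linarith
    calc ∑ i, ∑ Y ∈ range (n + P + 1), tm P T Tgt g (n + 1) i Y ≤
        ∑ i, ((if g (2 * n) i = x0 ∨ g (2 * n + 1) i = x1 then 8 * WW P T Tgt n st i else 0) +
        ∑ Y ∈ range (n + P + 1), if n ∈ T Y then 0 else uu P T Tgt n st i Y) :=
          Finset.sum_le_sum fun i _ => h1 i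
      _ ≤ ∑ i, WW P T Tgt n st i +
        ∑ i, ∑ Y ∈ range (n + P + 1), (if n ∈ T Y then 0 else uu P T Tgt n st i Y) := by
          rw [Finset.sum_add_distrib]
          gcongr
      _ = ∑ i, ∑ Y ∈ range (n + P + 1), uu P T Tgt n st i Y := by
          rw [← Finset.sum_add_distrib]
          exact Finset.sum_congr rfl fun i _ => (h3 i).symm
  have hu : ∑ i, ∑ Y ∈ range (n + P + 1), uu P T Tgt n st i Y ≤
      (1 - 1 / (2 * P)) * Phi P T Tgt g n := by
    rw [Phi, Finset.mul_sum]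
    apply Finset.sum_le_sum
    intro i _
    rw [Finset.mul_sum]
    apply Finset.sum_le_sum
    intro Y hY
    rw [mem_range] at hY
    exact uu_le hP g n i Y (by omega)
  have hnew : ∑ i : Fin k, tm P T Tgt g (n + 1) i (n + P + 1) ≤ k * (2 * (1 / 8) ^ R) := by
    calc ∑ i : Fin k, tm P T Tgt g (n + 1) i (n + P + 1) ≤ ∑ _i : Fin k, 2 * (1 / 8) ^ R :=
          Finset.sum_le_sum fun i _ => tm_new hP hT hR g (n + 1) i (n + P + 1) (by omega)
            fun h => card_full hT h (by omega)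
      _ = k * (2 * (1 / 8) ^ R) := by simp
  have e : Phi P T Tgt g (n + 1) = ∑ i, ∑ Y ∈ range (n + P + 1), tm P T Tgt g (n + 1) i Y +
      ∑ i : Fin k, tm P T Tgt g (n + 1) i (n + P + 1) := by
    rw [Phi, ← Finset.sum_add_distrib]
    apply Finset.sum_congr rfl
    intro i _
    have : n + 1 + P + 1 = (n + P + 1) + 1 := by ring
    rw [this, Finset.sum_range_succ]
  rw [e]
  linarith

lemma Phi_le (hP : 0 < P) {R : ℕ} (hT : ∀ Y ∈ Tgt, ∀ y ∈ T Y, y < Y ∧ Y ≤ y + P)
    (hR : ∀ Y ∈ Tgt, R ≤ (T Y).card) (g : ℕ → Fin k → Fin 16) (n : ℕ) :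
    Phi P T Tgt g n ≤ 4 * k * P * (1 / 8) ^ R := by
  have hP' : (1 : ℝ) ≤ P := by exact_mod_cast hP
  induction n with
  | zero =>
    have h1 : Phi P T Tgt g 0 ≤ ∑ _i : Fin k, ∑ _Y ∈ range (0 + P + 1), 2 * (1 / 8 : ℝ) ^ R := by
      apply Finset.sum_le_sum
      intro i _
      apply Finset.sum_le_sum
      intro Y hY
      rw [mem_range] at hY
      exact tm_new hP hT hR g 0 i Y (by omega) fun _ => filter_true_of_mem fun y _ => Nat.zero_le y
    refine h1.trans ?_
    rw [Finset.sum_const, Finset.sum_const, card_univ, Fintype.card_fin, card_range, nsmul_eq_mul,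
      nsmul_eq_mul]
    push_cast
    have h2 : (0 : ℝ) ≤ k * (1 / 8) ^ R := by positivity
    nlinarith
  | succ n ih =>
    refine (Phi_succ hP hT hR g n).trans ?_
    have hc : (0 : ℝ) ≤ 1 - 1 / (2 * P) := by
      rw [sub_nonneg, div_le_one (by positivity)]
      linarith
    have h1 := mul_le_mul_of_nonneg_left ih hc
    refine (add_le_add_left h1 _).trans (le_of_eq ?_)
    field_simp
    ring

/-- Job GUESS. -/
theorem stGuess : StGuess := by
  intro k R P T Tgt hT hR hR0 hk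
  classical
  refine ⟨fun j g => ch P T Tgt (j / 2) (stt P T Tgt g (j / 2)) (g j), ?_, ?_⟩
  · intro j g g' h
    have h1 := stt_congr P T Tgt g g' (j / 2) fun j' hj' => h j' (by omega)
    simp only [h1, h j le_rfl]
  · intro g Y hY i
    by_contra hcon
    push Not at hcon
    have e1 : ∀ y : ℕ, 2 * y / 2 = y := fun y => by omega
    have e2 : ∀ y : ℕ, (2 * y + 1) / 2 = y := fun y => by omega
    simp only [e1, e2] at hcon
    have hal : ∀ n, stt P T Tgt g n i Y := by
      intro n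
      induction n with
      | zero => trivial
      | succ n ih =>
        refine ⟨ih, fun hn => ?_⟩
        by_cases h : g (2 * n) i = ch P T Tgt n (stt P T Tgt g n) (g (2 * n))
        · exact Or.inl h
        · exact Or.inr (hcon n hn h)
    have hP : 0 < P := by
      have h1 := hR Y hY
      have h2 : (T Y).Nonempty := by
        rw [← card_pos]
        omega
      obtain ⟨y, hy⟩ := h2
      have := hT Y hY y hy
      omega
    have h1 : tm P T Tgt g Y i Y = 1 := by
      rw [tm, if_pos ⟨hY, le_rfl, hal Y⟩, wt]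
      have h2 : (T Y).filter (Y ≤ ·) = ∅ := by
        apply filter_false_of_mem
        intro y hy
        have := (hT Y hY y hy).1
        omega
      rw [h2]
      simp
    have h2 : (1 : ℝ) ≤ Phi P T Tgt g Y := by
      rw [← h1, Phi]
      calc tm P T Tgt g Y i Y ≤ ∑ Y' ∈ range (Y + P + 1), tm P T Tgt g Y i Y' :=
            Finset.single_le_sum (f := fun Y' => tm P T Tgt g Y i Y')
              (fun _ _ => tm_nonneg _ _ _ _) (by rw [mem_range]; omega)
        _ ≤ _ := Finset.single_le_sum (f := fun i => ∑ Y' ∈ range (Y + P + 1), tm P T Tgt g Y i Y')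
              (fun _ _ => Finset.sum_nonneg fun _ _ => tm_nonneg _ _ _ _) (mem_univ i)
    have h3 := Phi_le hP hT hR g Y
    have h4 : (4 * k * P : ℝ) < 8 ^ R := by exact_mod_cast hk
    have h5 : (4 * k * P : ℝ) * (1 / 8) ^ R < 1 := by
      rw [one_div, inv_pow, ← div_eq_mul_inv, div_lt_one (by positivity)]
      exact h4
    linarith

end Pool.Agent.K7.H35.CN
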